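import Pool.Agent.W843.Lnk.R6.Tab
import Pool.Agent.W846.K54.Walk

set_option autoImplicit false
set_option maxRecDepth 100000

namespace Pool.Agent.W843.Lnk.R6

open Pool.Agent.H122R2.N6 hiding TB tg walk walk_all chk
open Pool.Agent.W846.K54 (tg chk)

theorem part00 : (B2 fun b023 => B2 fun b123 => B2 fun b014 => B2 fun b024 => B2 fun b124 => B2 fun b034 => B2 fun b134 => B2 fun b234 => or (not (Nat.beq (tg 0 0 b023 b123 b014 b024 b124 b034 b134 b234) 4)) (chk q4 q2 CST 0 0 b023 b123 b014 b024 b124 b034 b134 b234)) = true := by decide +kernel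

end Pool.Agent.W843.Lnk.R6
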